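import Mathlib

/-! The finite abelian group of a lattice simplex: the group-theoretic part. -/

namespace Pool.Agent.V1154.HK

open Finset

/-- coordinates in `[0,1)` on a finite abelian group, additive modulo `1` -/
structure Box (G ι : Type) [AddCommGroup G] (c : ι → G → ℝ) : Prop where
  nonneg : ∀ i x, 0 ≤ c i x
  lt_one : ∀ i x, c i x < 1
  add : ∀ i x y, ∃ n : ℤ, c i (x + y) = c i x + c i y - n
  inj : ∀ x, (∀ i, c i x = 0) → x = 0

section

variable {G ι : Type} [AddCommGroup G] {c : ι → G → ℝ}

theorem int_zero {x : ℝ} {n : ℤ} (h0 : 0 ≤ x) (h1 : x < 1) (h : x = n) : x = 0 := by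
  rw [h] at h0 h1 ⊢
  have a1 : 0 ≤ n := by exact_mod_cast h0
  have a2 : n < 1 := by exact_mod_cast h1
  have : n = 0 := by omega
  simp [this]

theorem Box.zero (h : Box G ι c) (i : ι) : c i 0 = 0 := by
  obtain ⟨n, hn⟩ := h.add i 0 0
  rw [add_zero] at hn
  exact int_zero (h.nonneg i 0) (h.lt_one i 0) (n := n) (by linarith)

theorem Box.neg_of_ne (h : Box G ι c) (i : ι) (x : G) (hx : c i x ≠ 0) :
    c i (-x) = 1 - c i x := by
  obtain ⟨n, hn⟩ := h.add i x (-x)
  rw [add_neg_cancel, h.zero] at hn
  have h1 := h.nonneg i x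
  have h2 := h.lt_one i x
  have h3 := h.nonneg i (-x)
  have h4 := h.lt_one i (-x)
  have h5 : 0 < c i x := lt_of_le_of_ne h1 (Ne.symm hx)
  have h6 : (0 : ℝ) < n := by linarith
  have h7 : (n : ℝ) < 2 := by linarith
  have h8 : 0 < n := by exact_mod_cast h6
  have h9 : n < 2 := by exact_mod_cast h7
  have h10 : n = 1 := by omega
  rw [h10] at hn
  push_cast at hn
  linarith

theorem Box.neg_of_eq (h : Box G ι c) (i : ι) (x : G) (hx : c i x = 0) : c i (-x) = 0 := by
  obtain ⟨n, hn⟩ := h.add i x (-x)
  rw [add_neg_cancel, h.zero, hx] at hn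
  exact int_zero (h.nonneg i _) (h.lt_one i _) (n := n) (by linarith)

theorem Box.add_of_eq (h : Box G ι c) (i : ι) (x y : G) (hx : c i x = 0) (hy : c i y = 0) :
    c i (x + y) = 0 := by
  obtain ⟨n, hn⟩ := h.add i x y
  rw [hx, hy] at hn
  exact int_zero (h.nonneg i _) (h.lt_one i _) (n := -n) (by push_cast; linarith)

/-- the subgroup of elements vanishing on a set of coordinates -/
def Box.van (h : Box G ι c) (Z : Set ι) : AddSubgroup G where
  carrier := {x | ∀ i ∈ Z, c i x = 0}
  add_mem' := fun hx hy i hi => h.add_of_eq i _ _ (hx i hi) (hy i hi)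
  zero_mem' := fun i _ => h.zero i
  neg_mem' := fun hx i hi => h.neg_of_eq i _ (hx i hi)

theorem Box.mem_van (h : Box G ι c) (Z : Set ι) (x : G) :
    x ∈ h.van Z ↔ ∀ i ∈ Z, c i x = 0 := Iff.rfl

theorem Box.eq_of_sub (h : Box G ι c) (i : ι) (x y : G) (hxy : c i x = c i y) :
    c i (x - y) = 0 := by
  obtain ⟨n, hn⟩ := h.add i (x - y) y
  rw [sub_add_cancel, hxy] at hn
  exact int_zero (h.nonneg i _) (h.lt_one i _) (n := n) (by linarith)

theorem Box.nsmul_int (h : Box G ι c) (i : ι) (x : G) (m : ℕ) :
    ∃ n : ℤ, c i (m • x) = m * c i x - n := by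
  induction m with
  | zero => exact ⟨0, by simp [h.zero]⟩
  | succ m ih =>
    obtain ⟨n, hn⟩ := ih
    obtain ⟨n', hn'⟩ := h.add i (m • x) x
    refine ⟨n + n', ?_⟩
    rw [succ_nsmul, hn', hn]
    push_cast
    ring

variable [Fintype ι]

open Classical in
/-- the support -/
noncomputable def supp (c : ι → G → ℝ) (x : G) : Finset ι := univ.filter fun i => c i x ≠ 0

omit [AddCommGroup G] in
theorem mem_supp (x : G) (i : ι) : i ∈ supp c x ↔ c i x ≠ 0 := by
  classical
  simp [supp]

theorem supp_zero (h : Box G ι c) : supp c (0 : G) = ∅ := by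
  ext i
  rw [mem_supp]
  simp [h.zero]

theorem supp_eq_empty (h : Box G ι c) (x : G) (hx : supp c x = ∅) : x = 0 := by
  refine h.inj x fun i => ?_
  by_contra hi
  have := (mem_supp (c := c) x i).2 hi
  rw [hx] at this
  simp at this

theorem supp_neg (h : Box G ι c) (x : G) : supp c (-x) = supp c x := by
  ext i
  rw [mem_supp, mem_supp, not_iff_not]
  constructor
  · intro hi
    have := h.neg_of_eq i (-x) hi
    rwa [neg_neg] at this
  · exact h.neg_of_eq i x

/-- subgroup of elements with support in that of `x` -/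
noncomputable def Gx (h : Box G ι c) (x : G) : AddSubgroup G := h.van {i | i ∉ supp c x}

theorem mem_Gx (h : Box G ι c) (x y : G) : y ∈ Gx h x ↔ supp c y ⊆ supp c x := by
  rw [Gx, Box.mem_van]
  constructor
  · intro hy i hi
    by_contra hi'
    exact (mem_supp _ _).1 hi (hy i hi')
  · intro hy i hi
    by_contra hi'
    exact hi (hy ((mem_supp _ _).2 hi'))

/-- the height -/
noncomputable def ht (c : ι → G → ℝ) (x : G) : ℝ := ∑ i, c i x

theorem ht_add_neg (h : Box G ι c) (x : G) : ht c x + ht c (-x) = ((supp c x).card : ℝ) := by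
  classical
  rw [ht, ht, ← Finset.sum_add_distrib]
  have : ∀ i, c i x + c i (-x) = if i ∈ supp c x then 1 else 0 := by
    intro i
    by_cases hi : c i x = 0
    · rw [if_neg (fun h' => (mem_supp x i).1 h' hi), hi, h.neg_of_eq i x hi, add_zero]
    · rw [if_pos ((mem_supp x i).2 hi), h.neg_of_ne i x hi]
      ring
  simp only [this]
  simp

end

/-- The hypotheses on the heights. -/
structure Hyp (G ι : Type) [AddCommGroup G] [Fintype G] [Fintype ι] (c : ι → G → ℝ)
    (k b : ℕ) : Prop extends Box G ι c where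
  hk : 2 ≤ k
  hb : 2 ≤ b
  hht : ∀ x : G, x ≠ 0 → ht c x = k ∨ ht c x = 2 * k
  hcb : Nat.card {x : G // ht c x = 2 * k} = b
  hG : 4 * k * (b + 1) < Fintype.card G

section

variable {G ι : Type} [AddCommGroup G] [Fintype G] [Fintype ι] {c : ι → G → ℝ} {k b : ℕ}

open Classical in
/-- nonzero elements with support of size at most `2k` -/
noncomputable def TT (c : ι → G → ℝ) (k : ℕ) : Finset G :=
  univ.filter fun x => x ≠ 0 ∧ (supp c x).card ≤ 2 * k

open Classical in
/-- the other nonzero elements -/
noncomputable def Bd (c : ι → G → ℝ) (k : ℕ) : Finset G :=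
  univ.filter fun x => x ≠ 0 ∧ ¬ (supp c x).card ≤ 2 * k

theorem mem_TT (x : G) : x ∈ TT c k ↔ x ≠ 0 ∧ (supp c x).card ≤ 2 * k := by
  classical
  simp [TT]

theorem mem_Bd (x : G) : x ∈ Bd c k ↔ x ≠ 0 ∧ ¬ (supp c x).card ≤ 2 * k := by
  classical
  simp [Bd]

theorem card_split : Fintype.card G = 1 + (TT c k).card + (Bd c k).card := by
  classical
  have h1 : (univ : Finset G) = insert 0 (TT c k ∪ Bd c k) := by
    ext x
    simp only [mem_univ, mem_insert, mem_union, mem_TT, mem_Bd, true_iff]
    tauto
  rw [← card_univ, h1, card_insert_of_notMem, card_union_of_disjoint]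
  · ring
  · rw [Finset.disjoint_left]
    intro x hx hx'
    rw [mem_TT] at hx
    rw [mem_Bd] at hx'
    exact hx'.2 hx.2
  · simp [mem_TT, mem_Bd]

theorem card_supp_ge (H : Hyp G ι c k b) (x : G) (hx : x ≠ 0) : 2 * k ≤ (supp c x).card := by
  have h1 := ht_add_neg H.toBox x
  have h2 := H.hht x hx
  have h3 := H.hht (-x) (neg_ne_zero.2 hx)
  have hk0 : (0 : ℝ) ≤ k := Nat.cast_nonneg _
  have : (2 * k : ℝ) ≤ (supp c x).card := by
    rw [← h1]
    rcases h2 with h2 | h2 <;> rcases h3 with h3 | h3 <;> rw [h2, h3] <;> linarith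
  exact_mod_cast this

theorem card_supp_ge' (H : Hyp G ι c k b) (x : G) (hx : x ≠ 0) (hx2 : ht c x = 2 * k) :
    3 * k ≤ (supp c x).card := by
  have h1 := ht_add_neg H.toBox x
  have h3 := H.hht (-x) (neg_ne_zero.2 hx)
  have hk0 : (0 : ℝ) ≤ k := Nat.cast_nonneg _
  have : (3 * k : ℝ) ≤ (supp c x).card := by
    rw [← h1]
    rcases h3 with h3 | h3 <;> rw [hx2, h3] <;> linarith
  exact_mod_cast this

theorem supp_eq (H : Hyp G ι c k b) (x y : G) (hx : x ∈ TT c k) (hy : y ≠ 0)
    (hyx : supp c y ⊆ supp c x) : supp c y = supp c x := by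
  rw [mem_TT] at hx
  exact Finset.eq_of_subset_of_card_le hyx (hx.2.trans (card_supp_ge H y hy))

theorem TT_of_sub (H : Hyp G ι c k b) (x y : G) (hx : x ∈ TT c k) (hy : y ≠ 0)
    (hyx : supp c y ⊆ supp c x) : y ∈ TT c k := by
  rw [mem_TT]
  refine ⟨hy, ?_⟩
  rw [supp_eq H x y hx hy hyx]
  exact ((mem_TT x).1 hx).2

theorem card_Bd (H : Hyp G ι c k b) : (Bd c k).card ≤ 2 * b := by
  classical
  set S : Finset G := univ.filter fun x => ht c x = 2 * k with hS
  have hSb : S.card = b := by
    rw [← H.hcb, Nat.card_eq_fintype_card, Fintype.card_subtype]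
  have hsub : Bd c k ⊆ S ∪ S.image (fun x => -x) := by
    intro x hx
    rw [mem_Bd] at hx
    rw [mem_union, mem_image]
    by_contra hcon
    push Not at hcon
    have h1 : ht c x ≠ 2 * k := fun h => hcon.1 (by simp [hS, h])
    have h2 : ht c (-x) ≠ 2 * k := fun h => hcon.2 (-x) (by simp [hS, h]) (neg_neg x)
    have h3 := (H.hht x hx.1).resolve_right h1
    have h4 := (H.hht (-x) (neg_ne_zero.2 hx.1)).resolve_right h2
    have h5 := ht_add_neg H.toBox x
    rw [h3, h4] at h5
    have : ((supp c x).card : ℝ) = ((2 * k : ℕ) : ℝ) := by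
      rw [← h5]
      push_cast
      ring
    exact hx.2 (le_of_eq (by exact_mod_cast this))
  calc (Bd c k).card ≤ (S ∪ S.image (fun x => -x)).card := card_le_card hsub
    _ ≤ S.card + (S.image (fun x => -x)).card := card_union_le _ _
    _ ≤ S.card + S.card := Nat.add_le_add_left card_image_le _
    _ = 2 * b := by rw [hSb]; ring

/-- (F1) -/
theorem order_dvd (H : Hyp G ι c k b) (x y : G) (hx : x ∈ TT c k) (hy : y ∈ TT c k)
    (hne : supp c y ≠ supp c x) (hz : x + y ∈ TT c k) : addOrderOf y ∣ addOrderOf x := by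
  rw [addOrderOf_dvd_iff_nsmul_eq_zero]
  by_contra hcon
  set m := addOrderOf x with hm
  have h1 : m • (x + y) = m • y := by
    rw [nsmul_add, hm, addOrderOf_nsmul_eq_zero, zero_add]
  have h2 : m • y ∈ Gx H.toBox y := (Gx H.toBox y).nsmul_mem ((mem_Gx _ _ _).2 subset_rfl) m
  have h3 : m • y ∈ Gx H.toBox (x + y) := by
    rw [← h1]
    exact (Gx H.toBox (x + y)).nsmul_mem ((mem_Gx _ _ _).2 subset_rfl) m
  rw [mem_Gx] at h2 h3
  have h4 := supp_eq H y _ hy hcon h2
  have h5 := supp_eq H _ _ hz hcon h3
  have h6 : supp c (x + y) = supp c y := h5.symm.trans h4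
  -- so `x = (x + y) - y` has support in `supp y`
  have h7 : x ∈ Gx H.toBox y := by
    have : x = (x + y) - y := by abel
    rw [this]
    exact (Gx H.toBox y).sub_mem ((mem_Gx _ _ _).2 h6.subset) ((mem_Gx _ _ _).2 subset_rfl)
  rw [mem_Gx] at h7
  exact hne (supp_eq H y x hy ((mem_TT x).1 hx).1 h7).symm

open Classical in
/-- elements of `T` with different support and different order -/
noncomputable def Sx (c : ι → G → ℝ) (k : ℕ) (x : G) : Finset G :=
  (TT c k).filter fun y => supp c y ≠ supp c x ∧ addOrderOf y ≠ addOrderOf x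

theorem card_Sx (H : Hyp G ι c k b) (x : G) (hx : x ∈ TT c k) :
    (Sx c k x).card ≤ 2 * b := by
  classical
  refine le_trans ?_ (card_Bd H)
  refine Finset.card_le_card_of_injOn (fun y => x + y) ?_ (fun y _ y' _ h => add_left_cancel h)
  intro y hy
  simp only [Sx, coe_filter, Set.mem_ofPred_eq] at hy
  obtain ⟨hyT, hs, ho⟩ := hy
  rw [mem_coe, mem_Bd]
  have h0 : x + y ≠ 0 := by
    intro h
    have : y = -x := (neg_eq_of_add_eq_zero_right h).symm
    rw [this, supp_neg H.toBox] at hs
    exact hs rfl
  refine ⟨h0, fun hle => ho ?_⟩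
  have hz : x + y ∈ TT c k := (mem_TT _).2 ⟨h0, hle⟩
  refine Nat.dvd_antisymm (order_dvd H x y hx hyT hs hz) ?_
  exact order_dvd H y x hyT hx (Ne.symm hs) (by rwa [add_comm])

theorem exists_big (H : Hyp G ι c k b) : ∃ x : G, x ≠ 0 ∧ ht c x = 2 * k := by
  have hb := H.hb
  have h1 : Nat.card {x : G // ht c x = 2 * k} ≠ 0 := by
    rw [H.hcb]
    omega
  obtain ⟨⟨x, hx⟩⟩ := (Nat.card_ne_zero.1 h1).1
  refine ⟨x, ?_, hx⟩
  rintro rfl
  have h2 : ht c (0 : G) = 0 := by
    rw [ht]
    exact Finset.sum_eq_zero fun i _ => H.toBox.zero i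
  rw [h2] at hx
  have hk := H.hk
  have : (0 : ℝ) < 2 * k := by
    have : (0 : ℝ) < k := by exact_mod_cast (by omega : 0 < k)
    linarith
  linarith

open Classical in
/-- (F2) -/
theorem four_mul_card (H : Hyp G ι c k b) (x : G) (hx : x ∈ TT c k) :
    4 * Nat.card (Gx H.toBox x) ≤ Fintype.card G := by
  by_contra hcon
  push Not at hcon
  have hk := H.hk
  have hb := H.hb
  set K := Gx H.toBox x with hK
  have hlag : Nat.card K * K.index = Fintype.card G := by
    rw [AddSubgroup.card_mul_index, Nat.card_eq_fintype_card]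
  have hx0 := (mem_TT x).1 hx
  have hKpos : 0 < Nat.card K := Nat.card_pos
  have hind0 : K.index ≠ 0 := by
    intro h
    rw [h, mul_zero] at hlag
    exact Fintype.card_ne_zero hlag.symm
  have hind : K.index < 4 := by
    by_contra h
    push Not at h
    have := Nat.mul_le_mul_left (Nat.card K) h
    rw [hlag] at this
    omega
  -- index one is impossible
  have hind1 : K.index ≠ 1 := by
    intro h
    rw [AddSubgroup.index_eq_one] at h
    obtain ⟨z, hz0, hz⟩ := exists_big H
    have h1 : z ∈ K := by rw [h]; trivial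
    rw [hK, mem_Gx] at h1
    have h2 := card_le_card h1
    have h3 := card_supp_ge' H z hz0 hz
    have h4 := hx0.2
    omega
  have hind2 : K.index = 2 ∨ K.index = 3 := by omega
  set n := K.index with hn
  -- elements of `T` outside `K` are killed by `n`
  have hkill : ∀ y ∈ TT c k, y ∉ K → n • y = 0 := by
    intro y hy hyK
    by_contra hny
    have h1 : n • y ∈ K := AddSubgroup.nsmul_index_mem K y
    have h2 : n • y ∈ Gx H.toBox y :=
      (Gx H.toBox y).nsmul_mem ((mem_Gx _ _ _).2 subset_rfl) n
    rw [mem_Gx] at h2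
    rw [hK, mem_Gx] at h1
    have h3 := supp_eq H x _ hx hny h1
    have h4 := supp_eq H y _ hy hny h2
    exact hyK ((mem_Gx _ _ _).2 (h4.symm.trans h3).subset)
  obtain ⟨i, hi⟩ : (supp c x).Nonempty := by
    rw [Finset.nonempty_iff_ne_empty]
    intro h
    exact hx0.1 (supp_eq_empty H.toBox x h)
  have hn0 : 0 < n := Nat.pos_of_ne_zero hind0
  -- count the elements killed by `n`
  set W : Finset G := univ.filter fun y => n • y = 0 with hW
  have hWcard : W.card ≤ n * n := by
    have hcq : Nat.card (G ⧸ K) = n := rfl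
    have : Fintype (G ⧸ K) := Fintype.ofFinite _
    have hcq' : Fintype.card (G ⧸ K) = n := by rw [← Nat.card_eq_fintype_card, hcq]
    have hval : ∀ y ∈ W, ∃ j : ℕ, j < n ∧ (n : ℝ) * c i y = j := by
      intro y hy
      rw [hW, mem_filter] at hy
      obtain ⟨m, hm⟩ := H.toBox.nsmul_int i y n
      rw [hy.2, H.toBox.zero] at hm
      have hnpos : (0 : ℝ) < n := by exact_mod_cast hn0
      have h1 : (n : ℝ) * c i y = m := by linarith
      have h2 : (0 : ℝ) ≤ m := by
        rw [← h1]
        exact mul_nonneg hnpos.le (H.nonneg i y)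
      have h3 : (m : ℝ) < n := by
        rw [← h1]
        have := H.lt_one i y
        nlinarith
      have h4 : 0 ≤ m := by exact_mod_cast h2
      have h5 : m < n := by exact_mod_cast h3
      refine ⟨m.toNat, by omega, ?_⟩
      rw [h1]
      have : ((m.toNat : ℤ) : ℝ) = (m : ℝ) := by rw [Int.toNat_of_nonneg h4]
      exact_mod_cast this.symm
    have hcard : W.card ≤ (univ ×ˢ range n : Finset ((G ⧸ K) × ℕ)).card := by
      refine Finset.card_le_card_of_injOn
        (fun y => ((y : G ⧸ K), if h : y ∈ W then (hval y h).choose else 0)) ?_ ?_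
      · intro y hy
        have hy' : y ∈ W := hy
        rw [mem_coe, mem_product]
        refine ⟨mem_univ _, ?_⟩
        simp only [dif_pos hy']
        exact mem_range.2 (hval y hy').choose_spec.1
      · intro y hy y' hy' hyy
        have hyW : y ∈ W := hy
        have hyW' : y' ∈ W := hy'
        simp only [Prod.mk.injEq] at hyy
        rw [dif_pos hyW, dif_pos hyW'] at hyy
        have h1 := (hval y hyW).choose_spec.2
        have h2 := (hval y' hyW').choose_spec.2
        rw [hyy.2] at h1
        have hnpos : (n : ℝ) ≠ 0 := by exact_mod_cast hn0.ne'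
        have h3 : c i y = c i y' := mul_left_cancel₀ hnpos (h1.trans h2.symm)
        have h4 : y - y' ∈ K := by
          have := hyy.1
          rw [QuotientAddGroup.eq] at this
          have h5 := K.neg_mem this
          have h6 : -(-y + y') = y - y' := by abel
          rwa [h6] at h5
        by_contra hne
        have h7 : y - y' ≠ 0 := sub_ne_zero.2 hne
        rw [hK, mem_Gx] at h4
        have h8 := supp_eq H x _ hx h7 h4
        rw [← h8, mem_supp] at hi
        exact hi (H.toBox.eq_of_sub i y y' h3)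
    rw [card_product, card_univ, hcq', card_range] at hcard
    exact hcard
  -- bound the complement of `K`
  have hcompl : (univ.filter fun y => y ∉ K).card ≤ (n * n - 1) + 2 * b := by
    have hsub : (univ.filter fun y => y ∉ K) ⊆ W.erase 0 ∪ Bd c k := by
      intro y hy
      rw [mem_filter] at hy
      have hy0 : y ≠ 0 := by
        rintro rfl
        exact hy.2 K.zero_mem
      rw [mem_union, mem_erase]
      by_cases hyT : y ∈ TT c k
      · left
        exact ⟨hy0, by rw [hW, mem_filter]; exact ⟨mem_univ _, hkill y hyT hy.2⟩⟩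
      · right
        rw [mem_Bd]
        refine ⟨hy0, fun h => hyT ((mem_TT _).2 ⟨hy0, h⟩)⟩
    refine (card_le_card hsub).trans ((card_union_le _ _).trans ?_)
    refine Nat.add_le_add ?_ (card_Bd H)
    rw [card_erase_of_mem (by simp [hW])]
    omega
  have hKc : Nat.card K = (univ.filter fun y => y ∈ K).card := by
    rw [Nat.card_eq_fintype_card, Fintype.card_subtype]
  have hsum : (univ.filter fun y => y ∈ K).card + (univ.filter fun y => y ∉ K).card
      = Fintype.card G := by
    rw [← card_univ]
    exact card_filter_add_card_filter_not _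
  have hG := H.hG
  have hG8 : 8 * (b + 1) < Fintype.card G := by
    refine lt_of_le_of_lt ?_ hG
    exact Nat.mul_le_mul_right _ (by omega)
  rcases hind2 with h2 | h3
  · rw [h2] at hlag hcompl
    omega
  · rw [h3] at hlag hcompl
    omega

open Classical in
theorem card_gt (H : Hyp G ι c k b) : 8 * (b + 1) < Fintype.card G := by
  have hk := H.hk
  refine lt_of_le_of_lt ?_ H.hG
  exact Nat.mul_le_mul_right _ (by omega)

open Classical in
/-- (F3) -/
theorem order_same_line (H : Hyp G ι c k b) (x x' : G) (hx : x ∈ TT c k) (hx' : x' ≠ 0)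
    (hxx : x' ∈ Gx H.toBox x) : addOrderOf x' = addOrderOf x := by
  by_contra hne
  set K := Gx H.toBox x with hK
  have hs : supp c x' = supp c x := supp_eq H x x' hx hx' ((mem_Gx _ _ _).1 hxx)
  have hx'T : x' ∈ TT c k := TT_of_sub H x x' hx hx' ((mem_Gx _ _ _).1 hxx)
  have h4 := four_mul_card H x hx
  rw [← hK] at h4
  have hKc : Nat.card K = (univ.filter fun y => y ∈ K).card := by
    rw [Nat.card_eq_fintype_card, Fintype.card_subtype]
  have hsum : (univ.filter fun y => y ∈ K).card + (univ.filter fun y => y ∉ K).card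
      = Fintype.card G := by
    rw [← card_univ]
    exact card_filter_add_card_filter_not _
  have hsub : (univ.filter fun y => y ∉ K) ⊆ (Sx c k x ∪ Sx c k x') ∪ Bd c k := by
    intro y hy
    rw [mem_filter] at hy
    have hy0 : y ≠ 0 := by
      rintro rfl
      exact hy.2 K.zero_mem
    rw [mem_union]
    by_cases hyT : y ∈ TT c k
    · left
      have hsy : supp c y ≠ supp c x := by
        intro h
        exact hy.2 ((mem_Gx _ _ _).2 h.subset)
      rw [mem_union, Sx, Sx, mem_filter, mem_filter]
      by_cases ho : addOrderOf y = addOrderOf x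
      · right
        exact ⟨hyT, by rw [hs]; exact hsy, fun h => hne (h.symm.trans ho)⟩
      · left
        exact ⟨hyT, hsy, ho⟩
    · right
      rw [mem_Bd]
      exact ⟨hy0, fun h => hyT ((mem_TT _).2 ⟨hy0, h⟩)⟩
  have hc := card_le_card hsub
  have h5 := card_union_le (Sx c k x ∪ Sx c k x') (Bd c k)
  have h6 := card_union_le (Sx c k x) (Sx c k x')
  have h7 := card_Sx H x hx
  have h8 := card_Sx H x' hx'T
  have h9 := card_Bd H
  have h10 := card_gt H
  omega

open Classical in
/-- (F4) -/
theorem order_all (H : Hyp G ι c k b) (x x' : G) (hx : x ∈ TT c k) (hx' : x' ∈ TT c k) :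
    addOrderOf x' = addOrderOf x := by
  by_cases hs : supp c x' = supp c x
  · exact order_same_line H x x' hx ((mem_TT _).1 hx').1 ((mem_Gx _ _ _).2 hs.subset)
  by_contra hne
  set K := Gx H.toBox x with hK
  set K' := Gx H.toBox x' with hK'
  have h4 := four_mul_card H x hx
  have h4' := four_mul_card H x' hx'
  rw [← hK] at h4
  rw [← hK'] at h4'
  have hKc : Nat.card K = (univ.filter fun y => y ∈ K).card := by
    rw [Nat.card_eq_fintype_card, Fintype.card_subtype]
  have hKc' : Nat.card K' = (univ.filter fun y => y ∈ K').card := by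
    rw [Nat.card_eq_fintype_card, Fintype.card_subtype]
  -- product
  have hprod : Nat.card K * Nat.card K' ≤ Fintype.card G := by
    rw [hKc, hKc', ← card_product, ← card_univ]
    refine Finset.card_le_card_of_injOn (fun p => p.1 + p.2) (fun _ _ => mem_univ _) ?_
    rintro ⟨y, z⟩ hyz ⟨y', z'⟩ hyz' heq
    rw [mem_coe, mem_product, mem_filter, mem_filter] at hyz hyz'
    simp only at heq hyz hyz'
    have h1 : y - y' = z' - z := by
      rw [sub_eq_sub_iff_add_eq_add, heq, add_comm]
    have h2 : y - y' ∈ K := K.sub_mem hyz.1.2 hyz'.1.2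
    have h3 : y - y' ∈ K' := by
      rw [h1]
      exact K'.sub_mem hyz'.2.2 hyz.2.2
    have h4 : y - y' = 0 := by
      by_contra h
      rw [hK, mem_Gx] at h2
      rw [hK', mem_Gx] at h3
      have h5 := supp_eq H x _ hx h h2
      have h6 := supp_eq H x' _ hx' h h3
      exact hs (h6.symm.trans h5)
    have h5 : z' - z = 0 := h1 ▸ h4
    rw [sub_eq_zero] at h4 h5
    rw [h4, h5]
  have hsub : (univ : Finset G) ⊆ (((univ.filter fun y => y ∈ K) ∪
      (univ.filter fun y => y ∈ K').erase 0) ∪ (Sx c k x ∪ Sx c k x')) ∪ Bd c k := by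
    intro y _
    by_cases hyK : y ∈ K
    · rw [mem_union, mem_union, mem_union, mem_filter]
      exact Or.inl (Or.inl (Or.inl ⟨mem_univ _, hyK⟩))
    have hy0 : y ≠ 0 := by
      rintro rfl
      exact hyK K.zero_mem
    by_cases hyK' : y ∈ K'
    · rw [mem_union, mem_union, mem_union, mem_erase, mem_filter]
      exact Or.inl (Or.inl (Or.inr ⟨hy0, by rw [mem_filter]; exact ⟨mem_univ _, hyK'⟩⟩))
    by_cases hyT : y ∈ TT c k
    · rw [mem_union, mem_union]
      refine Or.inl (Or.inr ?_)
      rw [mem_union, Sx, Sx, mem_filter, mem_filter]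
      have hsy : supp c y ≠ supp c x := fun h => hyK ((mem_Gx _ _ _).2 h.subset)
      have hsy' : supp c y ≠ supp c x' := fun h => hyK' ((mem_Gx _ _ _).2 h.subset)
      by_cases ho : addOrderOf y = addOrderOf x
      · right
        exact ⟨hyT, hsy', fun h => hne (h.symm.trans ho)⟩
      · left
        exact ⟨hyT, hsy, ho⟩
    · rw [mem_union]
      right
      rw [mem_Bd]
      exact ⟨hy0, fun h => hyT ((mem_TT _).2 ⟨hy0, h⟩)⟩
  have hc := card_le_card hsub
  rw [card_univ] at hc
  have e1 := card_union_le (((univ.filter fun y => y ∈ K) ∪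
      (univ.filter fun y => y ∈ K').erase 0) ∪ (Sx c k x ∪ Sx c k x')) (Bd c k)
  have e2 := card_union_le ((univ.filter fun y => y ∈ K) ∪
      (univ.filter fun y => y ∈ K').erase 0) (Sx c k x ∪ Sx c k x')
  have e3 := card_union_le (univ.filter fun y => y ∈ K) ((univ.filter fun y => y ∈ K').erase 0)
  have e4 := card_union_le (Sx c k x) (Sx c k x')
  have e5 : ((univ.filter fun y => y ∈ K').erase 0).card = Nat.card K' - 1 := by
    rw [card_erase_of_mem (by simp [K'.zero_mem]), hKc']
  have h7 := card_Sx H x hx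
  have h8 := card_Sx H x' hx'
  have h9 := card_Bd H
  have h10 := card_gt H
  have hpos : 0 < Nat.card K' := Nat.card_pos
  have hpos1 : 0 < Nat.card K := Nat.card_pos
  set g := Nat.card K
  set g' := Nat.card K'
  have hkey : 4 * (g + g') ≤ Fintype.card G + 16 := by
    rcases lt_or_ge g 4 with h | h
    · omega
    · rcases lt_or_ge g' 4 with h' | h'
      · omega
      · obtain ⟨s, hs1⟩ : ∃ s, g = 4 + s := ⟨g - 4, by omega⟩
        obtain ⟨s', hs2⟩ : ∃ s', g' = 4 + s' := ⟨g' - 4, by omega⟩
        rw [hs1, hs2] at hprod ⊢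
        nlinarith [Nat.zero_le (s * s')]
  omega

theorem TT_nonempty (H : Hyp G ι c k b) : (TT c k).Nonempty := by
  rw [← Finset.card_pos]
  have h1 := card_split (G := G) (c := c) (k := k)
  have h2 := card_Bd H
  have h3 := card_gt H
  omega

/-- all elements of `T` have the same prime order -/
theorem exists_prime_order (H : Hyp G ι c k b) :
    ∃ p : ℕ, p.Prime ∧ ∀ x ∈ TT c k, p • x = 0 := by
  obtain ⟨x, hx⟩ := TT_nonempty H
  have hx0 := ((mem_TT x).1 hx).1
  set p := addOrderOf x with hp
  have hp0 : 0 < p := addOrderOf_pos x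
  have hp1 : p ≠ 1 := by
    rw [hp, Ne, AddMonoid.addOrderOf_eq_one_iff]
    exact hx0
  obtain ⟨q, hq, hqp⟩ := Nat.exists_prime_and_dvd hp1
  set y := (p / q) • x with hy
  have hlt : p / q < p := Nat.div_lt_self hp0 hq.one_lt
  have hpq : 0 < p / q := Nat.div_pos (Nat.le_of_dvd hp0 hqp) hq.pos
  have hy0 : y ≠ 0 := by
    intro h
    have := addOrderOf_dvd_of_nsmul_eq_zero h
    have := Nat.le_of_dvd hpq this
    omega
  have hqy : q • y = 0 := by
    rw [hy, ← mul_nsmul', Nat.mul_div_cancel' hqp, hp, addOrderOf_nsmul_eq_zero]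
  have hyo : addOrderOf y = q := by
    have h1 := addOrderOf_dvd_of_nsmul_eq_zero hqy
    rcases (Nat.dvd_prime hq).1 h1 with h | h
    · rw [AddMonoid.addOrderOf_eq_one_iff] at h
      exact absurd h hy0
    · exact h
  have hyG : y ∈ Gx H.toBox x := (Gx H.toBox x).nsmul_mem ((mem_Gx _ _ _).2 subset_rfl) _
  have h2 := order_same_line H x y hx hy0 hyG
  refine ⟨p, ?_, fun z hz => ?_⟩
  · rw [hp, ← h2, hyo]
    exact hq
  · have := order_all H x z hx hz
    rw [hp, ← this]
    exact addOrderOf_nsmul_eq_zero z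

/-- (F5) -/
theorem exponent (H : Hyp G ι c k b) : ∃ p : ℕ, p.Prime ∧ ∀ x : G, p • x = 0 := by
  classical
  obtain ⟨p, hp, hT⟩ := exists_prime_order H
  refine ⟨p, hp, ?_⟩
  let P : AddSubgroup G :=
    { carrier := {y | p • y = 0}
      add_mem' := by
        intro x y hx hy
        simp only [Set.mem_ofPred_eq] at hx hy ⊢
        rw [nsmul_add, hx, hy, add_zero]
      zero_mem' := by simp
      neg_mem' := by
        intro x hx
        simp only [Set.mem_ofPred_eq] at hx ⊢
        rw [neg_nsmul, hx, neg_zero] }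
  have hPmem : ∀ y, y ∈ P ↔ p • y = 0 := fun y => Iff.rfl
  have hlag : Nat.card P * P.index = Fintype.card G := by
    rw [AddSubgroup.card_mul_index, Nat.card_eq_fintype_card]
  have hPc : Nat.card P = (univ.filter fun y => y ∈ P).card := by
    rw [Nat.card_eq_fintype_card, Fintype.card_subtype]
  have hsub : (univ : Finset G) ⊆ (univ.filter fun y => y ∈ P) ∪ Bd c k := by
    intro y _
    rw [mem_union, mem_filter]
    by_cases hy0 : y = 0
    · left
      rw [hy0]
      exact ⟨mem_univ _, P.zero_mem⟩
    by_cases hyT : y ∈ TT c k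
    · left
      exact ⟨mem_univ _, hT y hyT⟩
    · right
      rw [mem_Bd]
      exact ⟨hy0, fun h => hyT ((mem_TT _).2 ⟨hy0, h⟩)⟩
  have hc := card_le_card hsub
  rw [card_univ] at hc
  have e1 := card_union_le (univ.filter fun y => y ∈ P) (Bd c k)
  have h9 := card_Bd H
  have h10 := card_gt H
  have hidx : P.index = 1 := by
    by_contra hne
    have h0 : P.index ≠ 0 := by
      intro h
      rw [h, mul_zero] at hlag
      exact Fintype.card_ne_zero hlag.symm
    have h2 : 2 ≤ P.index := by omega
    have h3 := Nat.mul_le_mul_left (Nat.card P) h2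
    rw [hlag] at h3
    omega
  rw [AddSubgroup.index_eq_one] at hidx
  intro x
  rw [← hPmem, hidx]
  trivial

omit [Fintype ι] in
/-- kernel of a nontrivial coordinate has index `p` -/
theorem card_ker (h : Box G ι c) (p : ℕ) (hp : p.Prime) (hexp : ∀ x : G, p • x = 0) (i : ι)
    (hi : ∃ x, c i x ≠ 0) : Nat.card (h.van {i}) * p = Fintype.card G := by
  classical
  set K := h.van {i} with hK
  have hKmem : ∀ x, x ∈ K ↔ c i x = 0 := by
    intro x
    rw [hK, Box.mem_van]
    simp
  have hlag : Nat.card K * K.index = Fintype.card G := by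
    rw [AddSubgroup.card_mul_index, Nat.card_eq_fintype_card]
  have hKpos : 0 < Nat.card K := Nat.card_pos
  -- `p` divides the index
  have hdvd : p ∣ K.index := by
    obtain ⟨x, hx⟩ := hi
    have hx1 : (x : G ⧸ K) ≠ 0 := by
      rw [Ne, QuotientAddGroup.eq_zero_iff, hKmem]
      exact hx
    have hx2 : p • (x : G ⧸ K) = 0 := by
      rw [← QuotientAddGroup.mk_nsmul, hexp, QuotientAddGroup.mk_zero]
    have hx3 : addOrderOf (x : G ⧸ K) = p := by
      rcases (Nat.dvd_prime hp).1 (addOrderOf_dvd_of_nsmul_eq_zero hx2) with h | h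
      · rw [AddMonoid.addOrderOf_eq_one_iff] at h
        exact absurd h hx1
      · exact h
    have := addOrderOf_dvd_natCard (x : G ⧸ K)
    rw [hx3] at this
    exact this
  -- at most `p` values
  have hval : ∀ y : G, ∃ j : ℕ, j < p ∧ (p : ℝ) * c i y = j := by
    intro y
    obtain ⟨m, hm⟩ := h.nsmul_int i y p
    rw [hexp, h.zero] at hm
    have hppos : (0 : ℝ) < p := by exact_mod_cast hp.pos
    have h1 : (p : ℝ) * c i y = m := by linarith
    have h2 : (0 : ℝ) ≤ m := by
      rw [← h1]
      exact mul_nonneg hppos.le (h.nonneg i y)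
    have h3 : (m : ℝ) < p := by
      rw [← h1]
      have := h.lt_one i y
      nlinarith
    have h4 : 0 ≤ m := by exact_mod_cast h2
    have h5 : m < p := by exact_mod_cast h3
    refine ⟨m.toNat, by omega, ?_⟩
    rw [h1]
    have : ((m.toNat : ℤ) : ℝ) = (m : ℝ) := by rw [Int.toNat_of_nonneg h4]
    exact_mod_cast this.symm
  choose j hj1 hj2 using hval
  have hle : Fintype.card G ≤ Nat.card K * p := by
    have h1 : (univ : Finset G).card ≤ Nat.card K * (univ.image j).card := by
      refine Finset.card_le_mul_card_image univ (Nat.card K) ?_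
      intro b hb
      rw [mem_image] at hb
      obtain ⟨y0, -, hy0⟩ := hb
      have hKc : Nat.card K = (univ.filter fun y => y ∈ K).card := by
        rw [Nat.card_eq_fintype_card, Fintype.card_subtype]
      rw [hKc]
      refine Finset.card_le_card_of_injOn (fun y => y - y0) ?_
        (fun y _ y' _ h => sub_left_injective h)
      intro y hy
      rw [mem_coe, mem_filter] at hy ⊢
      refine ⟨mem_univ _, ?_⟩
      rw [hKmem]
      apply h.eq_of_sub
      have hppos : (p : ℝ) ≠ 0 := by exact_mod_cast hp.pos.ne'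
      refine mul_left_cancel₀ hppos ?_
      rw [hj2, hj2, hy.2, hy0]
    rw [card_univ] at h1
    refine h1.trans (Nat.mul_le_mul_left _ ?_)
    calc (univ.image j).card ≤ (range p).card := card_le_card (by
          intro b hb
          rw [mem_image] at hb
          obtain ⟨y, -, rfl⟩ := hb
          exact mem_range.2 (hj1 y))
      _ = p := card_range p
  have h1 : K.index ≤ p := by
    rw [← hlag] at hle
    exact Nat.le_of_mul_le_mul_left hle hKpos
  have h2 : K.index ≠ 0 := by
    intro h0
    rw [h0, mul_zero] at hlag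
    exact Fintype.card_ne_zero hlag.symm
  have h3 := Nat.le_of_dvd (Nat.pos_of_ne_zero h2) hdvd
  have h4 : K.index = p := le_antisymm h1 h3
  rw [← hlag, h4]

/-- **The group-theoretic contradiction.** -/
theorem contradiction (H : Hyp G ι c k b) : False := by
  classical
  obtain ⟨p, hp, hexp⟩ := exponent H
  set N := (univ.filter fun i => ∃ x, c i x ≠ 0).card with hN
  -- the sum of the sizes of the supports
  have hcount : ∑ x : G, (supp c x).card = ∑ i : ι, (univ.filter fun x => c i x ≠ 0).card := by
    have h1 : ∀ x : G, (supp c x).card = ∑ i : ι, if c i x ≠ 0 then 1 else 0 := by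
      intro x
      rw [supp, card_filter]
    have h2 : ∀ i : ι, (univ.filter fun x => c i x ≠ 0).card
        = ∑ x : G, if c i x ≠ 0 then 1 else 0 := by
      intro i
      rw [card_filter]
    simp only [h1, h2]
    exact Finset.sum_comm
  obtain ⟨z, hz0, hz⟩ := exists_big H
  have hNz : 3 * k ≤ N := by
    refine (card_supp_ge' H z hz0 hz).trans (card_le_card ?_)
    intro i hi
    rw [mem_filter]
    exact ⟨mem_univ _, z, (mem_supp _ _).1 hi⟩
  have hk := H.hk
  have hb := H.hb
  -- `card G = p * h`
  have hNpos : 0 < N := by omega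
  obtain ⟨i0, hi0⟩ := Finset.card_pos.1 hNpos
  rw [mem_filter] at hi0
  obtain ⟨h, hh⟩ : ∃ h, Fintype.card G = p * h :=
    ⟨_, by rw [mul_comm]; exact (card_ker H.toBox p hp hexp i0 hi0.2).symm⟩
  have hcoord : ∀ i, (univ.filter fun x => c i x ≠ 0).card
      = if (∃ x, c i x ≠ 0) then (p - 1) * h else 0 := by
    intro i
    split_ifs with hi
    · have h1 := card_ker H.toBox p hp hexp i hi
      have h2 : Nat.card (H.toBox.van {i}) = (univ.filter fun x => c i x = 0).card := by
        rw [Nat.card_eq_fintype_card, Fintype.card_subtype]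
        congr 1
        ext x
        simp [Box.mem_van]
      have h3 : (univ.filter fun x => c i x = 0).card + (univ.filter fun x => ¬ c i x = 0).card
          = Fintype.card G := by
        rw [← card_univ]
        exact card_filter_add_card_filter_not _
      rw [hh] at h1 h3
      have h4 : Nat.card (H.toBox.van {i}) = h := by
        have : Nat.card (H.toBox.van {i}) * p = h * p := by rw [h1, mul_comm]
        exact Nat.eq_of_mul_eq_mul_right hp.pos this
      rw [← h2, h4] at h3
      rw [Nat.sub_mul, one_mul]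
      exact (Nat.sub_eq_of_eq_add' h3.symm).symm
    · push Not at hi
      rw [card_eq_zero, filter_eq_empty_iff]
      intro x _
      simp [hi x]
  have hsumsupp : ∑ x : G, (supp c x).card = N * ((p - 1) * h) := by
    rw [hcount]
    simp only [hcoord]
    rw [← Finset.sum_filter, Finset.sum_const, smul_eq_mul]
  -- the sum of the heights
  have hht2 : ∑ x : G, ((supp c x).card : ℝ) = 2 * ∑ x : G, ht c x := by
    have h1 : ∑ x : G, ht c (-x) = ∑ x : G, ht c x :=
      Equiv.sum_comp (Equiv.neg G) (fun x => ht c x)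
    have h2 : ∑ x : G, ((supp c x).card : ℝ) = ∑ x : G, (ht c x + ht c (-x)) :=
      Finset.sum_congr rfl fun x _ => (ht_add_neg H.toBox x).symm
    rw [h2, Finset.sum_add_distrib, h1]
    ring
  have hht3 : ∑ x : G, ht c x = k * (Fintype.card G) - k + k * b := by
    have hk0 : (0 : ℝ) < k := by exact_mod_cast (by omega : 0 < k)
    have h0 : ht c (0 : G) = 0 := Finset.sum_eq_zero fun i _ => H.toBox.zero i
    have h1 : ∀ x : G, ht c x = k + (if x = 0 then -(k : ℝ) else 0)
        + (if ht c x = 2 * k then (k : ℝ) else 0) := by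
      intro x
      by_cases hx : x = 0
      · subst hx
        rw [h0, if_pos rfl, if_neg (by linarith)]
        ring
      · rw [if_neg hx]
        rcases H.hht x hx with h | h
        · rw [h, if_neg (by linarith)]
          ring
        · rw [h, if_pos rfl]
          ring
    rw [Finset.sum_congr rfl fun x _ => h1 x, Finset.sum_add_distrib, Finset.sum_add_distrib,
      Finset.sum_const, Finset.sum_ite_eq', ← Finset.sum_filter, Finset.sum_const]
    have h2 : (univ.filter fun x : G => ht c x = 2 * k).card = b := by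
      rw [← H.hcb, Nat.card_eq_fintype_card, Fintype.card_subtype]
    rw [h2, card_univ]
    simp
    ring
  have hmain : (N : ℝ) * ((p - 1) * h) = 2 * (k * (p * h) - k + k * b) := by
    have h1 : ((∑ x : G, (supp c x).card : ℕ) : ℝ) = ((N * ((p - 1) * h) : ℕ) : ℝ) := by
      rw [hsumsupp]
    push_cast [Nat.cast_sub hp.one_le] at h1
    rw [hht2, hht3, hh] at h1
    push_cast at h1
    linarith
  have hGbig : (4 * k * (b + 1) : ℝ) < p * h := by
    have := H.hG
    rw [hh] at this
    exact_mod_cast this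
  have hkR : (2 : ℝ) ≤ k := by exact_mod_cast hk
  have hbR : (2 : ℝ) ≤ b := by exact_mod_cast hb
  have hNR : (3 * k : ℝ) ≤ N := by exact_mod_cast hNz
  have hh0 : (0 : ℝ) ≤ h := Nat.cast_nonneg _
  rcases lt_or_ge p 5 with hp5 | hp5
  · have hp2 := hp.two_le
    have hp4 : p ≠ 4 := by
      rintro rfl
      exact absurd hp (by norm_num)
    have hp23 : p = 2 ∨ p = 3 := by omega
    rcases hp23 with h2 | h3
    · rw [h2] at hmain hGbig
      push_cast at hmain hGbig
      have h1 : ((N : ℝ) - 4 * k) * h = 2 * k * (b - 1) := by linarith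
      have hpos : (0 : ℝ) < 2 * k * (b - 1) := by nlinarith
      have h2 : (0 : ℝ) < (N : ℝ) - 4 * k := by
        by_contra hcon
        push Not at hcon
        nlinarith
      have h3 : 4 * k < N := by
        have : (4 * k : ℝ) < N := by linarith
        exact_mod_cast this
      have h4 : (1 : ℝ) ≤ (N : ℝ) - 4 * k := by
        have : ((4 * k + 1 : ℕ) : ℝ) ≤ N := by exact_mod_cast h3
        push_cast at this
        linarith
      have h5 : (h : ℝ) ≤ 2 * k * (b - 1) := by nlinarith
      nlinarith
    · rw [h3] at hmain hGbig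
      push_cast at hmain hGbig
      have h1 : ((N : ℝ) - 3 * k) * h = k * (b - 1) := by linarith
      have hpos : (0 : ℝ) < k * (b - 1) := by nlinarith
      have h2 : (0 : ℝ) < (N : ℝ) - 3 * k := by
        by_contra hcon
        push Not at hcon
        nlinarith
      have h3 : 3 * k < N := by
        have : (3 * k : ℝ) < N := by linarith
        exact_mod_cast this
      have h4 : (1 : ℝ) ≤ (N : ℝ) - 3 * k := by
        have : ((3 * k + 1 : ℕ) : ℝ) ≤ N := by exact_mod_cast h3
        push_cast at this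
        linarith
      have h5 : (h : ℝ) ≤ k * (b - 1) := by nlinarith
      nlinarith
  · have hpR : (5 : ℝ) ≤ p := by exact_mod_cast hp5
    have h1 : (3 * k : ℝ) * ((p - 1) * h) ≤ N * ((p - 1) * h) :=
      mul_le_mul_of_nonneg_right hNR (mul_nonneg (by linarith) hh0)
    rw [hmain] at h1
    have hkpos : (0 : ℝ) < k := by linarith
    have h2 : (k : ℝ) * ((p - 3) * h) ≤ k * (2 * (b - 1)) := by nlinarith
    have h3 : ((p : ℝ) - 3) * h ≤ 2 * (b - 1) := le_of_mul_le_mul_left h2 hkpos
    -- p h ≤ 5 (b-1)
    have h4 : (p : ℝ) * h ≤ 5 / 2 * (((p : ℝ) - 3) * h) := by nlinarith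
    nlinarith

end

end Pool.Agent.V1154.HK
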