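import Mathlib
import Pool.Agent.V1154.HK.Grp

/-! Ehrhart series of a lattice simplex. -/

namespace Pool.Agent.V1154.HK

open Finset PowerSeries
open scoped Pointwise

/-- The number of lattice points of the dilate `m P`. -/
noncomputable def Ehr {d : ℕ} (P : Set (Fin d → ℝ)) (m : ℕ) : ℕ :=
  Nat.card {z : Fin d → ℤ // (fun i => (z i : ℝ)) ∈ (m : ℝ) • P}

/-- `h` is the `h*`-polynomial of the `d`-dimensional polytope `P`: the Ehrhart series of `P` is
`h(t) / (1 - t)^(d+1)`. -/
def HasHStar {d : ℕ} (P : Set (Fin d → ℝ)) (h : Polynomial ℤ) : Prop :=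
  PowerSeries.mk (fun m => (Ehr P m : ℤ)) * (1 - PowerSeries.X) ^ (d + 1) = (h : PowerSeries ℤ)

/-! ### compositions -/

/-- equivalence used for counting compositions -/
noncomputable def compEquiv (ι : Type) [Fintype ι] [DecidableEq ι] (m : ℕ) :
    {n : ι → ℕ // ∑ i, n i = m} ≃ ↥((univ : Finset ι).finsuppAntidiag m) :=
  (Finsupp.equivFunOnFinite.symm).subtypeEquiv (fun n => by
    rw [mem_finsuppAntidiag]
    simp)

theorem card_comp (ι : Type) [Fintype ι] (m : ℕ) :
    (Nat.card {n : ι → ℕ // ∑ i, n i = m} : ℤ)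
      = PowerSeries.coeff m ((PowerSeries.mk 1 : ℤ⟦X⟧) ^ Fintype.card ι) := by
  classical
  have h1 : (PowerSeries.mk 1 : ℤ⟦X⟧) ^ Fintype.card ι
      = ∏ _i ∈ (univ : Finset ι), (PowerSeries.mk 1 : ℤ⟦X⟧) := by
    rw [Finset.prod_const, card_univ]
  rw [h1, PowerSeries.coeff_prod, Nat.card_congr (compEquiv ι m), Nat.card_eq_finsetCard]
  simp only [PowerSeries.coeff_mk, Pi.one_apply, Finset.prod_const_one, Finset.sum_const,
    nsmul_eq_mul, mul_one]

theorem finite_comp (ι : Type) [Fintype ι] (m : ℕ) : Finite {n : ι → ℕ // ∑ i, n i = m} := by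
  classical
  exact Finite.of_equiv _ (compEquiv ι m).symm

/-- real numbers that are integers -/
def IsInt (x : ℝ) : Prop := ∃ n : ℤ, x = n

theorem IsInt.add {x y : ℝ} (hx : IsInt x) (hy : IsInt y) : IsInt (x + y) := by
  obtain ⟨a, rfl⟩ := hx
  obtain ⟨b, rfl⟩ := hy
  exact ⟨a + b, by push_cast; rfl⟩

theorem IsInt.neg {x : ℝ} (hx : IsInt x) : IsInt (-x) := by
  obtain ⟨a, rfl⟩ := hx
  exact ⟨-a, by push_cast; rfl⟩

theorem IsInt.sub {x y : ℝ} (hx : IsInt x) (hy : IsInt y) : IsInt (x - y) := by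
  rw [sub_eq_add_neg]
  exact hx.add hy.neg

theorem IsInt.sum {κ : Type} (s : Finset κ) (f : κ → ℝ) (h : ∀ i ∈ s, IsInt (f i)) :
    IsInt (∑ i ∈ s, f i) := by
  classical
  induction s using Finset.induction_on with
  | empty => exact ⟨0, by simp⟩
  | insert a s ha ih =>
    rw [Finset.sum_insert ha]
    exact (h a (mem_insert_self _ _)).add (ih fun i hi => h i (mem_insert_of_mem hi))

theorem IsInt.mul {x y : ℝ} (hx : IsInt x) (hy : IsInt y) : IsInt (x * y) := by
  obtain ⟨a, rfl⟩ := hx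
  obtain ⟨b, rfl⟩ := hy
  exact ⟨a * b, by push_cast; rfl⟩

theorem isInt_floor (x : ℝ) : IsInt (⌊x⌋ : ℝ) := ⟨_, rfl⟩

section simplex

variable {d : ℕ} (v : Fin (d + 1) → Fin d → ℝ)

/-- the affine combination map -/
noncomputable def Lc : (Fin (d + 1) → ℝ) →ₗ[ℝ] (Fin d → ℝ) := Fintype.linearCombination ℝ v

theorem Lc_apply (l : Fin (d + 1) → ℝ) (j : Fin d) : Lc v l j = ∑ i, l i * v i j := by
  rw [Lc, Fintype.linearCombination_apply, Finset.sum_apply]
  rfl

/-- coefficient vectors of integral points of integral height -/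
def LL : AddSubgroup (Fin (d + 1) → ℝ) where
  carrier := {l | IsInt (∑ i, l i) ∧ ∀ j, IsInt (Lc v l j)}
  add_mem' := by
    rintro a b ⟨ha, ha'⟩ ⟨hb, hb'⟩
    refine ⟨?_, fun j => ?_⟩
    · simp only [Pi.add_apply, Finset.sum_add_distrib]
      exact ha.add hb
    · rw [map_add]
      exact (ha' j).add (hb' j)
  zero_mem' := ⟨⟨0, by simp⟩, fun j => ⟨0, by simp⟩⟩
  neg_mem' := by
    rintro a ⟨ha, ha'⟩
    refine ⟨?_, fun j => ?_⟩
    · simp only [Pi.neg_apply, Finset.sum_neg_distrib]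
      exact ha.neg
    · rw [map_neg]
      exact (ha' j).neg

/-- integer vectors -/
def ZZ (d : ℕ) : AddSubgroup (Fin (d + 1) → ℝ) where
  carrier := {l | ∀ i, IsInt (l i)}
  add_mem' := fun ha hb i => (ha i).add (hb i)
  zero_mem' := fun i => ⟨0, by simp⟩
  neg_mem' := fun ha i => (ha i).neg

theorem mem_LL (l : Fin (d + 1) → ℝ) :
    l ∈ LL v ↔ IsInt (∑ i, l i) ∧ ∀ j, IsInt (Lc v l j) := Iff.rfl

theorem mem_ZZ (l : Fin (d + 1) → ℝ) : l ∈ ZZ d ↔ ∀ i, IsInt (l i) := Iff.rfl

variable (hv : ∀ i j, IsInt (v i j))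

include hv in
theorem ZZ_le : ZZ d ≤ LL v := by
  intro l hl
  rw [mem_LL]
  refine ⟨IsInt.sum _ _ fun i _ => hl i, fun j => ?_⟩
  rw [Lc_apply]
  exact IsInt.sum _ _ fun i _ => (hl i).mul (hv i j)

/-- the finite group of the simplex -/
abbrev Qg : Type := (LL v) ⧸ ((ZZ d).addSubgroupOf (LL v))

/-- the coordinates on the group -/
noncomputable def cc (i : Fin (d + 1)) (x : Qg v) : ℝ := Int.fract ((Quotient.out x).1 i)

theorem out_sub (x : Qg v) (l : LL v) (h : (l : Qg v) = x) (i : Fin (d + 1)) :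
    IsInt ((Quotient.out x).1 i - l.1 i) := by
  have h1 : ((Quotient.out x : LL v) : Qg v) = (l : Qg v) := by
    rw [h]
    exact Quotient.out_eq x
  rw [eq_comm, QuotientAddGroup.eq, AddSubgroup.mem_addSubgroupOf] at h1
  have h2 := h1 i
  have h3 : ((-l + Quotient.out x : LL v).1) i = (Quotient.out x).1 i - l.1 i := by
    show -(l.1 i) + (Quotient.out x).1 i = _
    ring
  rw [h3] at h2
  exact h2

theorem cc_mk (l : LL v) (i : Fin (d + 1)) : cc v i (l : Qg v) = Int.fract (l.1 i) := by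
  obtain ⟨n, hn⟩ := out_sub v (l : Qg v) l rfl i
  rw [cc, Int.fract_eq_fract]
  exact ⟨n, hn⟩

theorem box : Box (Qg v) (Fin (d + 1)) (cc v) where
  nonneg := fun i x => Int.fract_nonneg _
  lt_one := fun i x => Int.fract_lt_one _
  add := by
    intro i x y
    have h1 : ((Quotient.out x + Quotient.out y : LL v) : Qg v) = x + y := by
      rw [QuotientAddGroup.mk_add]
      congr 1
      · exact Quotient.out_eq x
      · exact Quotient.out_eq y
    have h2 := cc_mk v (Quotient.out x + Quotient.out y) i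
    rw [h1] at h2
    rw [h2]
    have h3 : ((Quotient.out x + Quotient.out y : LL v)).1 i
        = (Quotient.out x).1 i + (Quotient.out y).1 i := rfl
    rw [h3]
    obtain ⟨n, hn⟩ := Int.fract_add ((Quotient.out x).1 i) ((Quotient.out y).1 i)
    refine ⟨-n, ?_⟩
    rw [cc, cc]
    push_cast
    linarith
  inj := by
    intro x hx
    rw [← Quotient.out_eq x]
    change ((Quotient.out x : LL v) : Qg v) = 0
    rw [QuotientAddGroup.eq_zero_iff, AddSubgroup.mem_addSubgroupOf]
    intro i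
    have := hx i
    rw [cc, Int.fract_eq_iff] at this
    obtain ⟨-, -, n, hn⟩ := this
    exact ⟨n, by linarith⟩

include hv in
theorem cc_mem (x : Qg v) : (fun i => cc v i x) ∈ LL v := by
  have h1 : (fun i => cc v i x) = (Quotient.out x).1 - fun i => ((⌊(Quotient.out x).1 i⌋ : ℤ) : ℝ) := by
    funext i
    rw [cc, Int.fract]
    rfl
  rw [h1]
  exact (LL v).sub_mem (Quotient.out x).2 (ZZ_le v hv fun i => isInt_floor _)

/-- natural number height -/
noncomputable def hN (x : Qg v) : ℕ := ⌊ht (cc v) x⌋₊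

include hv in
theorem ht_eq (x : Qg v) : ht (cc v) x = hN v x := by
  obtain ⟨n, hn⟩ := ((mem_LL v _).1 (cc_mem v hv x)).1
  have h0 : 0 ≤ ht (cc v) x := Finset.sum_nonneg fun i _ => (box v).nonneg i x
  have h1 : ht (cc v) x = n := hn
  have h2 : 0 ≤ n := by
    rw [h1] at h0
    exact_mod_cast h0
  obtain ⟨m, rfl⟩ := Int.eq_ofNat_of_zero_le h2
  rw [hN, h1]
  simp

theorem cc_inj (x y : Qg v) (h : ∀ i, cc v i x = cc v i y) : x = y := by
  rw [← sub_eq_zero]
  exact (box v).inj _ fun i => (box v).eq_of_sub i x y (h i)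

/-- nonnegative coefficient vectors at height `m` -/
def Sm (m : ℕ) : Set (Fin (d + 1) → ℝ) :=
  {l | (∀ i, 0 ≤ l i) ∧ ∑ i, l i = m ∧ ∀ j, IsInt (Lc v l j)}

/-- the decomposition map -/
noncomputable def dec (m : ℕ) (p : Σ q : Qg v, {n : Fin (d + 1) → ℕ // hN v q + ∑ i, n i = m}) :
    Fin (d + 1) → ℝ := fun i => cc v i p.1 + (p.2.1 i : ℝ)

include hv in
theorem dec_mem (m : ℕ) (p) : dec v m p ∈ Sm v m := by
  obtain ⟨q, n, hn⟩ := p
  refine ⟨fun i => add_nonneg ((box v).nonneg i q) (Nat.cast_nonneg _), ?_, fun j => ?_⟩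
  · simp only [dec]
    rw [Finset.sum_add_distrib]
    have : ∑ i, cc v i q = ht (cc v) q := rfl
    rw [this, ht_eq v hv, ← hn]
    push_cast
    rfl
  · have h1 : dec v m ⟨q, n, hn⟩ = (fun i => cc v i q) + fun i => (n i : ℝ) := rfl
    rw [h1, map_add]
    refine (((mem_LL v _).1 (cc_mem v hv q)).2 j).add ?_
    exact ((mem_LL v _).1 (ZZ_le v hv (fun i => ⟨n i, by push_cast; rfl⟩))).2 j

include hv in
theorem dec_bij (m : ℕ) : Function.Bijective
    (fun p => (⟨dec v m p, dec_mem v hv m p⟩ : Sm v m)) := by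
  constructor
  · rintro ⟨q, n, hn⟩ ⟨q', n', hn'⟩ h
    have h1 : ∀ i, cc v i q + (n i : ℝ) = cc v i q' + (n' i : ℝ) := by
      intro i
      have := congrArg Subtype.val h
      exact congrFun this i
    have h2 : ∀ i, n i = n' i ∧ cc v i q = cc v i q' := by
      intro i
      have a1 := (box v).nonneg i q
      have a2 := (box v).lt_one i q
      have a3 := (box v).nonneg i q'
      have a4 := (box v).lt_one i q'
      have a5 := h1 i
      have a6 : n i < n' i + 1 := by
        have : (n i : ℝ) < (n' i : ℝ) + 1 := by linarith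
        exact_mod_cast this
      have a7 : n' i < n i + 1 := by
        have : (n' i : ℝ) < (n i : ℝ) + 1 := by linarith
        exact_mod_cast this
      have a8 : n i = n' i := by omega
      refine ⟨a8, ?_⟩
      rw [a8] at a5
      linarith
    have hq : q = q' := cc_inj v q q' fun i => (h2 i).2
    subst hq
    have hn2 : n = n' := funext fun i => (h2 i).1
    subst hn2
    rfl
  · rintro ⟨l, hl0, hl1, hl2⟩
    have hlL : l ∈ LL v := ⟨⟨m, by rw [hl1]; push_cast; rfl⟩, hl2⟩
    have hcc : ∀ i, cc v i ((⟨l, hlL⟩ : LL v) : Qg v) = Int.fract (l i) := fun i => cc_mk v _ i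
    have hfl : ∀ i, ((⌊l i⌋.toNat : ℕ) : ℝ) = (⌊l i⌋ : ℝ) := by
      intro i
      have h0 : 0 ≤ ⌊l i⌋ := Int.floor_nonneg.2 (hl0 i)
      have : ((⌊l i⌋.toNat : ℤ) : ℝ) = (⌊l i⌋ : ℝ) := by rw [Int.toNat_of_nonneg h0]
      exact_mod_cast this
    refine ⟨⟨((⟨l, hlL⟩ : LL v) : Qg v), fun i => ⌊l i⌋.toNat, ?_⟩, ?_⟩
    · have h1 : ((hN v ((⟨l, hlL⟩ : LL v) : Qg v) + ∑ i, ⌊l i⌋.toNat : ℕ) : ℝ) = (m : ℝ) := by
        push_cast
        rw [← ht_eq v hv, ht, ← Finset.sum_add_distrib, ← hl1]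
        refine Finset.sum_congr rfl fun i _ => ?_
        rw [hcc, hfl, Int.fract_add_floor]
      exact_mod_cast h1
    · apply Subtype.ext
      funext i
      simp only [dec]
      rw [hcc, hfl, Int.fract_add_floor]

/-! ### finiteness -/

variable (hind : AffineIndependent ℝ v)

include hind in
theorem Lc_inj (l l' : Fin (d + 1) → ℝ) (h1 : ∑ i, l i = ∑ i, l' i) (h2 : Lc v l = Lc v l') :
    l = l' := by
  have h3 := (affineIndependent_iff.1 hind) univ (fun i => l i - l' i) (by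
    rw [Finset.sum_sub_distrib, h1, sub_self]) (by
    have : ∑ e, (l e - l' e) • v e = Lc v l - Lc v l' := by
      rw [Lc, Fintype.linearCombination_apply, Fintype.linearCombination_apply,
        ← Finset.sum_sub_distrib]
      exact Finset.sum_congr rfl fun i _ => sub_smul _ _ _
    rw [this, h2, sub_self])
  funext i
  exact sub_eq_zero.1 (h3 i (mem_univ i))

include hind in
theorem Sm_finite (m : ℕ) : Finite (Sm v m) := by
  have hint : ∀ l : Sm v m, ∀ j, ∃ n : ℤ, Lc v l.1 j = n := fun l j => l.2.2.2 j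
  choose z hz using hint
  set R : ℤ := ⌈(m : ℝ) * ∑ i, ∑ j, |v i j|⌉ with hR
  have hbd : ∀ (l : Sm v m) j, |(z l j : ℝ)| ≤ (m : ℝ) * ∑ i, ∑ j, |v i j| := by
    intro l j
    rw [← hz, Lc_apply]
    refine (Finset.abs_sum_le_sum_abs _ _).trans ?_
    rw [Finset.mul_sum]
    refine Finset.sum_le_sum fun i _ => ?_
    rw [abs_mul]
    have h1 : |l.1 i| ≤ m := by
      rw [abs_of_nonneg (l.2.1 i), ← l.2.2.1]
      exact Finset.single_le_sum (f := fun i => l.1 i) (fun i _ => l.2.1 i) (mem_univ i)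
    have h2 : |v i j| ≤ ∑ j, |v i j| :=
      Finset.single_le_sum (f := fun j => |v i j|) (fun j _ => abs_nonneg _) (mem_univ j)
    exact mul_le_mul h1 h2 (abs_nonneg _) (Nat.cast_nonneg _)
  have hmem : ∀ l : Sm v m, z l ∈ Set.Icc (fun _ : Fin d => -R) (fun _ => R) := by
    intro l
    have h1 : ∀ j, |z l j| ≤ R := by
      intro j
      have h2 := (hbd l j).trans (Int.le_ceil _)
      exact_mod_cast h2
    exact ⟨fun j => (abs_le.1 (h1 j)).1, fun j => (abs_le.1 (h1 j)).2⟩
  have hfin : (Set.Icc (fun _ : Fin d => -R) (fun _ => R)).Finite := Set.finite_Icc _ _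
  have := hfin.to_subtype
  refine Finite.of_injective (β := Set.Icc (fun _ : Fin d => -R) (fun _ => R))
    (fun l => ⟨z l, hmem l⟩) ?_
  intro l l' hll
  have h1 : z l = z l' := congrArg Subtype.val hll
  apply Subtype.ext
  refine Lc_inj v hind _ _ (by rw [l.2.2.1, l'.2.2.1]) ?_
  funext j
  rw [hz, hz, h1]

include hv hind in
theorem Qg_finite : Finite (Qg v) := by
  have hf : ∀ m : Fin (d + 1), Finite (Sm v m) := fun m => Sm_finite v hind m
  have hlt : ∀ q : Qg v, hN v q < d + 1 := by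
    intro q
    have h1 : ht (cc v) q < ∑ _i : Fin (d + 1), (1 : ℝ) := by
      refine Finset.sum_lt_sum_of_nonempty univ_nonempty fun i _ => (box v).lt_one i q
    rw [ht_eq v hv] at h1
    simp only [Finset.sum_const, card_univ, Fintype.card_fin, nsmul_eq_mul, mul_one] at h1
    exact_mod_cast h1
  have hmem : ∀ q : Qg v, (fun i => cc v i q) ∈ Sm v (⟨hN v q, hlt q⟩ : Fin (d + 1)) := by
    intro q
    exact ⟨fun i => (box v).nonneg i q, ht_eq v hv q, ((mem_LL v _).1 (cc_mem v hv q)).2⟩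
  refine Finite.of_injective (β := Σ m : Fin (d + 1), Sm v m)
    (fun q => ⟨⟨hN v q, hlt q⟩, ⟨fun i => cc v i q, hmem q⟩⟩) ?_
  intro q q' h
  refine cc_inj v q q' fun i => ?_
  have : ∀ (a b : Σ m : Fin (d + 1), Sm v m), a = b → a.2.1 = b.2.1 := by
    rintro a b rfl
    rfl
  exact congrFun (this _ _ h) i

/-! ### Ehrhart counting -/

theorem convexHull_eq : convexHull ℝ (Set.range v) = Lc v '' stdSimplex ℝ (Fin (d + 1)) := by
  classical
  rw [← convexHull_rangle_single_eq_stdSimplex, LinearMap.image_convexHull, ← Set.range_comp]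
  congr 2
  funext i
  simp [Lc]

include hind in
theorem Ehr_eq (m : ℕ) : Ehr (convexHull ℝ (Set.range v)) m = Nat.card (Sm v m) := by
  symm
  have hint : ∀ l : Sm v m, ∀ j, ∃ n : ℤ, Lc v l.1 j = n := fun l j => l.2.2.2 j
  choose z hz using hint
  have hmem : ∀ l : Sm v m, (fun i => (z l i : ℝ)) ∈ (m : ℝ) • convexHull ℝ (Set.range v) := by
    intro l
    have h1 : (fun i => (z l i : ℝ)) = Lc v l.1 := by
      funext j
      rw [hz]
    rw [h1, convexHull_eq, Set.mem_smul_set]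
    rcases Nat.eq_zero_or_pos m with hm | hm
    · refine ⟨Lc v (Pi.single 0 1), ⟨_, single_mem_stdSimplex ℝ 0, rfl⟩, ?_⟩
      have h2 : l.1 = 0 := by
        funext i
        have h3 := (Finset.sum_eq_zero_iff_of_nonneg (fun i _ => l.2.1 i)).1
          (by rw [l.2.2.1, hm]; simp) i (mem_univ i)
        exact h3
      rw [h2, map_zero, hm]
      simp
    · have hm' : (0 : ℝ) < m := by exact_mod_cast hm
      refine ⟨Lc v ((1 / (m : ℝ)) • l.1), ⟨_, ⟨fun i => ?_, ?_⟩, rfl⟩, ?_⟩
      · have := l.2.1 i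
        simp only [Pi.smul_apply, smul_eq_mul]
        positivity
      · simp only [Pi.smul_apply, smul_eq_mul]
        rw [← Finset.mul_sum, l.2.2.1]
        field_simp
      · rw [map_smul, smul_smul, mul_one_div_cancel hm'.ne', one_smul]
  refine Nat.card_eq_of_bijective (fun l => ⟨z l, hmem l⟩) ⟨?_, ?_⟩
  · intro l l' hll
    have h1 : z l = z l' := congrArg Subtype.val hll
    apply Subtype.ext
    refine Lc_inj v hind _ _ (by rw [l.2.2.1, l'.2.2.1]) ?_
    funext j
    rw [hz, hz, h1]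
  · rintro ⟨w, hw⟩
    rw [convexHull_eq, Set.mem_smul_set] at hw
    obtain ⟨_, ⟨l, hl, rfl⟩, hlw⟩ := hw
    rw [← map_smul] at hlw
    have hS : ((m : ℝ) • l) ∈ Sm v m := by
      refine ⟨fun i => ?_, ?_, fun j => ⟨w j, by rw [hlw]⟩⟩
      · have := hl.1 i
        simp only [Pi.smul_apply, smul_eq_mul]
        positivity
      · simp only [Pi.smul_apply, smul_eq_mul]
        rw [← Finset.mul_sum, hl.2, mul_one]
    refine ⟨⟨(m : ℝ) • l, hS⟩, ?_⟩
    apply Subtype.ext
    funext j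
    have h1 := hz ⟨(m : ℝ) • l, hS⟩ j
    rw [hlw] at h1
    have h2 : ((w j : ℤ) : ℝ) = ((z ⟨(m : ℝ) • l, hS⟩ j : ℤ) : ℝ) := h1
    exact (Int.cast_injective h2).symm

include hv hind in
/-- The Ehrhart series of a lattice simplex. -/
theorem ehr_series [Fintype (Qg v)] :
    PowerSeries.mk (fun m => (Ehr (convexHull ℝ (Set.range v)) m : ℤ))
      = (∑ q : Qg v, (X : ℤ⟦X⟧) ^ hN v q) * (PowerSeries.mk 1) ^ (d + 1) := by
  classical
  ext m
  rw [coeff_mk, Ehr_eq v hind, ← Nat.card_eq_of_bijective _ (dec_bij v hv m), Finset.sum_mul,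
    map_sum]
  have hfin : ∀ q : Qg v, Finite {n : Fin (d + 1) → ℕ // hN v q + ∑ i, n i = m} := by
    intro q
    have := finite_comp (Fin (d + 1)) (m - hN v q)
    refine Finite.of_injective
      (β := {n : Fin (d + 1) → ℕ // ∑ i, n i = m - hN v q}) (fun n => ⟨n.1, ?_⟩) ?_
    · have := n.2
      omega
    · intro n n' h
      have h' := congrArg Subtype.val h
      exact Subtype.ext h'
  rw [Nat.card_sigma]
  push_cast
  refine Finset.sum_congr rfl fun q _ => ?_
  rw [PowerSeries.coeff_X_pow_mul']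
  split_ifs with h
  · have h1 := card_comp (Fin (d + 1)) (m - hN v q)
    rw [Fintype.card_fin] at h1
    rw [← h1]
    congr 1
    refine Nat.card_congr (Equiv.subtypeEquivRight fun n => ?_)
    omega
  · rw [Int.natCast_eq_zero, Nat.card_eq_zero]
    left
    refine ⟨fun n => ?_⟩
    have := n.2
    omega

include hv hind in
theorem hstar_eq [Fintype (Qg v)] (h : Polynomial ℤ)
    (hh : HasHStar (convexHull ℝ (Set.range v)) h) :
    h = ∑ q : Qg v, (Polynomial.X : Polynomial ℤ) ^ hN v q := by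
  apply Polynomial.coe_injective ℤ
  rw [← hh, ehr_series v hv hind, mul_assoc, ← mul_pow, mk_one_mul_one_sub_eq_one, one_pow,
    mul_one]
  have : ((∑ q : Qg v, (Polynomial.X : Polynomial ℤ) ^ hN v q : Polynomial ℤ) : ℤ⟦X⟧)
      = ∑ q : Qg v, (X : ℤ⟦X⟧) ^ hN v q := by
    rw [← Polynomial.coeToPowerSeries.ringHom_apply, map_sum]
    refine Finset.sum_congr rfl fun q _ => ?_
    rw [map_pow, Polynomial.coeToPowerSeries.ringHom_apply, Polynomial.coe_X]
  exact this.symm

end simplex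

end Pool.Agent.V1154.HK
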